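import Pool.Agent.N299.DT.Stm2
import Pool.Agent.Helper757.GL.Quot

/-!
# Norms are computed in the fibres over a central element
-/

set_option autoImplicit false

noncomputable section

namespace Pool.Agent.N346.DT.CX

open Pool.Agent.Helper757.GL

/-- tent function with a plateau -/
def kap (t d s : ℝ) : ℝ := max 0 (min 1 (2 - 2 * |s - t| / d))

theorem kap_cont (t d : ℝ) : Continuous (kap t d) := by
  unfold kap
  fun_prop

theorem kap_nonneg (t d s : ℝ) : 0 ≤ kap t d s := le_max_left _ _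

theorem kap_le_one (t d s : ℝ) : kap t d s ≤ 1 := max_le zero_le_one (min_le_left _ _)

theorem kap_mul_le {t d : ℝ} (hd : 0 < d) (s : ℝ) : |kap t d s * (s - t)| ≤ d := by
  rw [abs_mul, abs_of_nonneg (kap_nonneg _ _ _)]
  rcases le_or_gt |s - t| d with h | h
  · calc kap t d s * |s - t| ≤ 1 * d :=
        mul_le_mul (kap_le_one _ _ _) h (abs_nonneg _) zero_le_one
      _ = d := one_mul d
  · have : kap t d s = 0 := by
      unfold kap
      apply max_eq_left
      refine (min_le_right _ _).trans ?_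
      have : 2 ≤ 2 * |s - t| / d := by
        rw [le_div_iff₀ hd]
        linarith
      linarith
    rw [this, zero_mul]
    exact hd.le

theorem kap_one {t d : ℝ} (hd : 0 < d) {s : ℝ} (h : |s - t| < d / 2) : kap t d s = 1 := by
  unfold kap
  have : 2 * |s - t| / d ≤ 1 := by
    rw [div_le_one hd]
    linarith
  rw [min_eq_left (by linarith), max_eq_right zero_le_one]

variable {E : Type} [CStarAlgebra E]

theorem bump_le {z : E} (hz : IsSelfAdjoint z) (t : ℝ) {d : ℝ} (hd : 0 < d) (x y : E) :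
    ‖cfc (kap t d) z * x‖ ≤ ‖x - (z - (t : ℂ) • (1 : E)) * y‖ + d * ‖y‖ := by
  have h1 : cfc (kap t d) z * (z - (t : ℂ) • (1 : E)) = cfc (fun s => kap t d s * (s - t)) z := by
    rw [cfc_mul (kap t d) (fun s => s - t) z (kap_cont t d).continuousOn (by fun_prop),
      cfc_sub (fun s : ℝ => s) (fun _ => t) z (by fun_prop) (by fun_prop), cfc_id' ℝ z,
      cfc_const t z, Pool.Agent.N299.real_smul_eq, Algebra.algebraMap_eq_smul_one]
  have h2 : cfc (kap t d) z * x = cfc (kap t d) z * (x - (z - (t : ℂ) • (1 : E)) * y) +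
      cfc (fun s => kap t d s * (s - t)) z * y := by
    rw [← h1]
    simp only [mul_sub, sub_mul, mul_assoc]
    abel
  have h3 : ‖cfc (kap t d) z‖ ≤ 1 := norm_cfc_le zero_le_one fun s _ => by
    rw [Real.norm_eq_abs, abs_of_nonneg (kap_nonneg _ _ _)]
    exact kap_le_one _ _ _
  have h4 : ‖cfc (fun s => kap t d s * (s - t)) z‖ ≤ d := norm_cfc_le hd.le fun s _ => by
    rw [Real.norm_eq_abs]
    exact kap_mul_le hd s
  rw [h2]
  refine (norm_add_le _ _).trans (add_le_add ?_ ?_)
  · calc ‖cfc (kap t d) z * (x - (z - (t : ℂ) • (1 : E)) * y)‖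
        ≤ ‖cfc (kap t d) z‖ * ‖x - (z - (t : ℂ) • (1 : E)) * y‖ := norm_mul_le _ _
      _ ≤ 1 * ‖x - (z - (t : ℂ) • (1 : E)) * y‖ := mul_le_mul_of_nonneg_right h3 (norm_nonneg _)
      _ = _ := one_mul _
  · exact (norm_mul_le _ _).trans (mul_le_mul_of_nonneg_right h4 (norm_nonneg _))

/-- the distances from `x` to the ideals cannot all be smaller than the norm of `x` -/
theorem key {z x : E} (hz : IsSelfAdjoint z) (hc : ∀ y, z * y = y * z)
    (h : ∀ t : ℝ, ∃ y : E, ‖x - (z - (t : ℂ) • (1 : E)) * y‖ < ‖x‖) : False := by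
  choose y hy using h
  have hd : ∀ t : ℝ, ∃ d : ℝ, 0 < d ∧ ‖x - (z - (t : ℂ) • (1 : E)) * y t‖ + d * ‖y t‖ < ‖x‖ := by
    intro t
    refine ⟨(‖x‖ - ‖x - (z - (t : ℂ) • (1 : E)) * y t‖) / (‖y t‖ + 1), ?_, ?_⟩
    · have := hy t
      have h2 : 0 < ‖y t‖ + 1 := by positivity
      exact div_pos (by linarith) h2
    · have h1 := hy t
      have h2 : 0 < ‖y t‖ + 1 := by positivity
      have h3 : (‖x‖ - ‖x - (z - (t : ℂ) • (1 : E)) * y t‖) / (‖y t‖ + 1) * ‖y t‖ <
          ‖x‖ - ‖x - (z - (t : ℂ) • (1 : E)) * y t‖ := by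
        rw [div_mul_eq_mul_div, div_lt_iff₀ h2]
        nlinarith
      linarith
  choose d hd0 hd1 using hd
  set K : Set ℝ := spectrum ℝ z with hK
  have hKc : IsCompact K := ContinuousFunctionalCalculus.isCompact_spectrum (R := ℝ) z
  obtain ⟨T, -, hT⟩ := hKc.elim_nhds_subcover
    (fun t => Metric.ball t (d t / 2)) (fun t _ => Metric.ball_mem_nhds t (half_pos (hd0 t)))
  let U : T → Set ℝ := fun i => Metric.ball (i : ℝ) (d i / 2)
  obtain ⟨f, hf⟩ := PartitionOfUnity.exists_isSubordinate_of_locallyFinite hKc.isClosed U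
    (fun i => Metric.isOpen_ball) (locallyFinite_of_finite U) (by
      intro s hs
      obtain ⟨t, ht, hst⟩ := Set.mem_iUnion₂.1 (hT hs)
      exact Set.mem_iUnion.2 ⟨⟨t, ht⟩, hst⟩)
  have hx0 : 0 < ‖x‖ := (norm_nonneg _).trans_lt (hy 0)
  obtain ⟨m, hm0, hm1, hm2⟩ : ∃ m : ℝ, 0 ≤ m ∧ m < ‖x‖ ∧ ∀ i ∈ T,
      ‖x - (z - (i : ℂ) • (1 : E)) * y i‖ + d i * ‖y i‖ ≤ m := by
    clear hT U hf f
    classical
    induction T using Finset.induction_on with
    | empty => exact ⟨0, le_rfl, hx0, fun i hi => absurd hi (Finset.notMem_empty i)⟩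
    | insert a s ha ih =>
      obtain ⟨m, h1, h2, h3⟩ := ih
      refine ⟨max m (‖x - (z - (a : ℂ) • (1 : E)) * y a‖ + d a * ‖y a‖), h1.trans (le_max_left _ _),
        max_lt h2 (hd1 a), fun i hi => ?_⟩
      rcases Finset.mem_insert.1 hi with rfl | hi
      · exact le_max_right _ _
      · exact (h3 i hi).trans (le_max_left _ _)
  let _ : PartialOrder E := CStarAlgebra.spectralOrder E
  let _ : StarOrderedRing E := CStarAlgebra.spectralOrderedRing E
  let H : T → E := fun i => cfc (fun s => Real.sqrt (f i s)) z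
  let F : T → E := fun i => cfc (kap i (d i)) z
  have hHsa : ∀ i, star (H i) = H i := fun i => IsSelfAdjoint.cfc (f := _) (a := z)
  have hFsa : ∀ i, star (F i) = F i := fun i => IsSelfAdjoint.cfc (f := _) (a := z)
  have hHc : ∀ i (w : E), H i * w = w * H i := fun i w =>
    (Commute.cfc_real (show Commute z w from hc w) _)
  have hFc : ∀ i (w : E), F i * w = w * F i := fun i w =>
    (Commute.cfc_real (show Commute z w from hc w) _)
  have hsc : ∀ i, Continuous fun s => Real.sqrt (f i s) := fun i =>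
    Real.continuous_sqrt.comp (f i).continuous
  have hHH : ∀ i, H i * H i = cfc (fun s => f i s) z := by
    intro i
    rw [← cfc_mul (R := ℝ) _ _ z (hsc i).continuousOn (hsc i).continuousOn]
    exact cfc_congr fun s _ => Real.mul_self_sqrt (f.nonneg i s)
  have hHF : ∀ i, H i * F i = H i := by
    intro i
    rw [← cfc_mul (R := ℝ) _ _ z (hsc i).continuousOn (kap_cont _ _).continuousOn]
    refine cfc_congr fun s _ => ?_
    by_cases h0 : f i s = 0
    · rw [h0, Real.sqrt_zero, zero_mul]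
    · have h1 : s ∈ U i := hf i (subset_tsupport _ h0)
      rw [kap_one (hd0 _) (by rwa [Metric.mem_ball, Real.dist_eq] at h1), mul_one]
  have hsum : ∑ i, H i * H i = 1 := by
    simp only [hHH]
    rw [← cfc_sum_univ (fun i s => f i s) z (fun i => (f i).continuous.continuousOn),
      ← cfc_one ℝ z]
    refine cfc_congr fun s hs => ?_
    have := f.sum_eq_one hs
    rw [finsum_eq_sum_of_fintype] at this
    rw [Finset.sum_apply, this, Pi.one_apply]
  have hFx : ∀ i, ‖F i * x‖ ≤ m := fun i => (bump_le hz i (hd0 i) x (y i)).trans (hm2 i i.2)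
  have hle : ∀ i, H i * (star x * x) * H i ≤ algebraMap ℝ E (m ^ 2) * (H i * H i) := by
    intro i
    have e1 : H i * (star x * x) * H i = star (H i) * (star (F i * x) * (F i * x)) * H i := by
      rw [star_mul, hHsa, hFsa]
      have e2 : H i * (star x * x) * H i = (H i * F i) * (star x * x) * (H i * F i) := by
        rw [hHF]
      rw [e2]
      calc H i * F i * (star x * x) * (H i * F i)
          = H i * (F i * star x) * x * (F i * H i) := by
            rw [hFc i (H i)]
            simp only [mul_assoc]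
        _ = H i * (star x * F i) * (x * F i) * H i := by
            rw [hFc i (star x)]
            simp only [mul_assoc]
        _ = H i * (star x * F i) * (F i * x) * H i := by rw [hFc i x]
        _ = _ := by simp only [mul_assoc]
    have e3 : star (F i * x) * (F i * x) ≤ algebraMap ℝ E (m ^ 2) :=
      (CStarAlgebra.star_mul_le_algebraMap_norm_sq (a := F i * x)).trans
        (algebraMap_mono E (pow_le_pow_left₀ (norm_nonneg _) (hFx i) 2))
    have e4 := star_left_conjugate_le_conjugate e3 (H i)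
    rw [e1]
    refine e4.trans (le_of_eq ?_)
    rw [hHsa, hHc i, mul_assoc]
  have htot : star x * x ≤ algebraMap ℝ E (m ^ 2) := by
    calc star x * x = ∑ i, H i * (star x * x) * H i := by
          have : ∀ i, H i * (star x * x) * H i = (H i * H i) * (star x * x) := fun i => by
            rw [mul_assoc, ← hHc i, ← mul_assoc]
          simp only [this]
          rw [← Finset.sum_mul, hsum, one_mul]
      _ ≤ ∑ i, algebraMap ℝ E (m ^ 2) * (H i * H i) := Finset.sum_le_sum fun i _ => hle i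
      _ = _ := by rw [← Finset.mul_sum, hsum, mul_one]
  have hn := CStarAlgebra.norm_le_norm_of_nonneg_of_le (star_mul_self_nonneg x) htot
  have : Nontrivial E := ⟨x, 0, fun h0 => by rw [h0, norm_zero] at hx0; exact lt_irrefl _ hx0⟩
  rw [CStarRing.norm_star_mul_self, norm_algebraMap', Real.norm_eq_abs,
    abs_of_nonneg (sq_nonneg m)] at hn
  nlinarith

/-- the ideal -/
def Id (z : E) (t : ℝ) : Submodule ℂ E :=
  (LinearMap.range (LinearMap.mulLeft ℂ (z - (t : ℂ) • (1 : E)))).topologicalClosure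

theorem ci {z : E} (hc : ∀ y, z * y = y * z) (t : ℝ) : CI (Id z t) := by
  have hc' : ∀ y, (z - (t : ℂ) • (1 : E)) * y = y * (z - (t : ℂ) • (1 : E)) := by
    intro y
    rw [sub_mul, mul_sub, hc y, smul_mul_assoc, mul_smul_comm, one_mul, mul_one]
  refine ⟨Submodule.isClosed_topologicalClosure _, ?_, ?_⟩
  · intro a x hx
    refine map_mem_closure (f := fun w => a * w) (by fun_prop) hx ?_
    rintro _ ⟨y, rfl⟩
    refine ⟨a * y, ?_⟩
    rw [LinearMap.mulLeft_apply, LinearMap.mulLeft_apply, ← mul_assoc, hc', mul_assoc]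
  · intro a x hx
    refine map_mem_closure (f := fun w => w * a) (by fun_prop) hx ?_
    rintro _ ⟨y, rfl⟩
    refine ⟨y * a, ?_⟩
    rw [LinearMap.mulLeft_apply, LinearMap.mulLeft_apply, ← mul_assoc]

/-- the quotient map as a star homomorphism -/
def sHom {I : Submodule ℂ E} (H : CI I) : E →⋆ₐ[ℂ] Q H :=
  { mkHom H with map_star' := fun a => mk_star H a }

theorem t_CX : Pool.Agent.N299.DT.S_CX := by
  intro E _ z x hz hc
  by_contra hcon
  push Not at hcon
  refine key (x := x) (z := z) hz hc fun t => ?_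
  have h1 : ‖sHom (ci hc t) x‖ < ‖x‖ := by
    refine hcon t (Q (ci hc t)) inferInstance (sHom (ci hc t)) ?_
    have h2 : mk (ci hc t) z = mk (ci hc t) ((t : ℂ) • (1 : E)) := by
      rw [mk_eq]
      refine subset_closure ⟨1, ?_⟩
      rw [LinearMap.mulLeft_apply, mul_one]
    exact h2
  obtain ⟨w, hw1, hw2⟩ := exists_rep (ci hc t) (mk (ci hc t) x)
    (ε := ‖x‖ - ‖sHom (ci hc t) x‖) (by linarith)
  have hw3 : ‖w‖ < ‖x‖ := by
    have : ‖mk (ci hc t) x‖ = ‖sHom (ci hc t) x‖ := rfl
    linarith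
  have hw4 : x - w ∈ Id z t := (mk_eq (ci hc t) x w).1 hw1.symm
  obtain ⟨v, ⟨y, rfl⟩, hv⟩ := Metric.mem_closure_iff.1 hw4 (‖x‖ - ‖w‖) (by linarith)
  refine ⟨y, ?_⟩
  rw [dist_eq_norm, LinearMap.mulLeft_apply] at hv
  have h5 : x - (z - (t : ℂ) • (1 : E)) * y = w + (x - w - (z - (t : ℂ) • (1 : E)) * y) := by abel
  rw [h5]
  exact (norm_add_le _ _).trans_lt (by linarith)

end Pool.Agent.N346.DT.CX
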